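import Pool.Agent.helper70.FI.SpecQ1

set_option autoImplicit false

namespace Pool.Agent.FI

open Pool.Agent.helper58.DC Pool.Agent.DI Pool.Agent.GR Pool.Agent.OB

theorem QDI_int {ι : Type} {s : Set ι} (hs : s.Finite) (f : ι → ℂ)
    (h : ∀ i ∈ s, IsIntegral ℤ (f i)) : IsIntegral ℤ (∑ᶠ i ∈ s, f i) := by
  rw [finsum_mem_eq_finite_toFinset_sum f hs]
  exact IsIntegral.sum _ fun i hi => h i (hs.mem_toFinset.1 hi)

theorem QDI (hQRS : QRS_stmt) (hQCE : QCE_stmt) (hB2 : B2_stmt) : QDI_stmt := by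
  intro G _ _ M L θ u hu χ' hχ'
  have hK : Cz L u ≤ L := inf_le_left
  have huK : u ∈ Cz L u := by
    refine Subgroup.mem_inf.2 ⟨hu, Subgroup.mem_centralizer_iff.2 fun q hq => ?_⟩
    rw [Set.mem_singleton_iff] at hq
    rw [hq]
  have hcen : Cen (Cz L u) u := by
    intro l hl
    have h1 := Subgroup.mem_centralizer_iff.1 (Subgroup.mem_inf.1 hl).2
    exact (h1 u rfl).symm
  have hfin : (Bl M (Cz L u) θ).Finite := (hB2 G (Cz L u)).1.subset fun _ h => h.1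
  unfold dd
  refine QDI_int hfin _ fun ψ hψ => ?_
  obtain ⟨n, hn⟩ := (hQRS G L (Cz L u) hK χ' hχ').1 ψ hψ.1
  rw [hn]
  exact IsIntegral.mul (isIntegral_natCast n) (hQCE G (Cz L u) u huK hcen ψ hψ.1).2.2

end Pool.Agent.FI
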